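import Mathlib
import Pool.Agent.Lib.MP_6498db_nt.L.Fin4

/-!
# The equation `x^n - m^3 y^2 = ±1` for almost all `m`
-/

namespace Pool.Agent.Results.MP_6498db_nt.AlmostAll

/-- For all positive integers `m ≤ X` with at most `C X / (log X)^c` exceptions, every solution
`x, y > 1`, `n > 2`, `ε = ±1` of `x^n - m^3 y^2 = ε` has `n` squarefree and prime to 30,
`x ≡ ε` mod 4, `x^n - ε = n z^2 (x - ε)` for an integer `z`, and `n m ∣ x - ε` if `m` is squarefree. -/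
theorem result : ∃ C c : ℝ, 0 < c ∧ ∀ X : ℕ, 2 ≤ X →
    (({m : ℕ | 1 ≤ m ∧ m ≤ X ∧ ∃ (x y n : ℕ) (ε : ℤ), 1 < x ∧ 1 < y ∧ 2 < n ∧ (ε = 1 ∨ ε = -1) ∧
      (x : ℤ) ^ n - (m : ℤ) ^ 3 * (y : ℤ) ^ 2 = ε ∧
      ¬ (n.Coprime 30 ∧ Squarefree n ∧ (4 : ℤ) ∣ (x : ℤ) - ε ∧
        (∃ z : ℤ, (x : ℤ) ^ n - ε = n * z ^ 2 * ((x : ℤ) - ε)) ∧
        (Squarefree m → ((n * m : ℕ) : ℤ) ∣ (x : ℤ) - ε))}.ncard : ℕ) : ℝ) ≤
      C * X / Real.log X ^ c :=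
  Pool.Agent.Wal.walsh_four

end Pool.Agent.Results.MP_6498db_nt.AlmostAll
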